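import Pool.Agent.Helper28.VD.VD11a

namespace Pool.Agent.Helper13.Venn

open Set Metric Topology Bornology

namespace VD11c

/-- The sixth function as a function of the coordinates. -/
theorem g5 (p : E 5) : g 5 p = p 4 - hgt (p 0) (p 1) (p 2) (p 3) := by
  simp [g]

theorem g0 (p : E 5) : g 0 p = p 0 := by simp [g]
theorem g1 (p : E 5) : g 1 p = p 1 := by simp [g]
theorem g2 (p : E 5) : g 2 p = p 2 := by simp [g]
theorem g3 (p : E 5) : g 3 p = p 3 := by simp [g]
theorem g4 (p : E 5) : g 4 p = p 4 := by simp [g]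

theorem cont_coord (j : Fin 5) : Continuous (fun p : E 5 => p j) := by fun_prop

theorem cont_hgt : Continuous (fun p : E 5 => hgt (p 0) (p 1) (p 2) (p 3)) := by
  unfold hgt FU FL phi
  fun_prop

theorem cont_g (i : Fin 6) : Continuous (g i) := by
  have := cont_hgt
  fin_cases i
  · show Continuous (g 0)
    rw [show g 0 = fun p : E 5 => p 0 from funext g0]; exact cont_coord 0
  · show Continuous (g 1)
    rw [show g 1 = fun p : E 5 => p 1 from funext g1]; exact cont_coord 1
  · show Continuous (g 2)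
    rw [show g 2 = fun p : E 5 => p 2 from funext g2]; exact cont_coord 2
  · show Continuous (g 3)
    rw [show g 3 = fun p : E 5 => p 3 from funext g3]; exact cont_coord 3
  · show Continuous (g 4)
    rw [show g 4 = fun p : E 5 => p 4 from funext g4]; exact cont_coord 4
  · show Continuous (g 5)
    rw [show g 5 = fun p : E 5 => p 4 - hgt (p 0) (p 1) (p 2) (p 3) from funext g5]
    fun_prop

theorem phi_hom (t x y z : ℝ) (ht : 0 < t) : phi (t * x) (t * y) (t * z) = t * phi x y z := by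
  unfold phi
  have h1 : |t * y - 2 * (t * x)| = t * |y - 2 * x| := by
    rw [← abs_of_pos ht, ← abs_mul, abs_of_pos ht]; ring_nf
  have h2 : |t * z| = t * |z| := by rw [abs_mul, abs_of_pos ht]
  rw [h1, h2]
  have h3 : t * |y - 2 * x| + t * |z| - t * x = t * (|y - 2 * x| + |z| - x) := by ring
  rw [h3, abs_mul, abs_of_pos ht]

theorem max_hom (t a : ℝ) (ht : 0 < t) : max 0 (t * a) = t * max 0 a := by
  rcases le_total 0 a with h | h
  · rw [max_eq_right h, max_eq_right (by positivity)]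
  · rw [max_eq_left h, max_eq_left (mul_nonpos_of_nonneg_of_nonpos ht.le h)]; ring

theorem max_hom' (t a b : ℝ) (ht : 0 < t) : max (t * a) (t * b) = t * max a b :=
  (mul_max_of_nonneg a b ht.le).symm

theorem min_hom' (t a b : ℝ) (ht : 0 < t) : min (t * a) (t * b) = t * min a b :=
  (mul_min_of_nonneg a b ht.le).symm

theorem FU_hom (t x y z : ℝ) (ht : 0 < t) : FU (t * x) (t * y) (t * z) = t * FU x y z := by
  unfold FU
  have e1 : 2 * (t * x) - t * y = t * (2 * x - y) := by ring
  have h1 : |t * y - t * x| = t * |y - x| := by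
    rw [← mul_sub, abs_mul, abs_of_pos ht]
  have h2 : |t * z| = t * |z| := by rw [abs_mul, abs_of_pos ht]
  have h3 : |t * x| = t * |x| := by rw [abs_mul, abs_of_pos ht]
  rw [phi_hom t x y z ht, e1, max_hom t _ ht, h1, h2, h3, ← min_hom' t _ _ ht]
  congr 1 <;> ring

theorem FL_hom (t x y z : ℝ) (ht : 0 < t) : FL (t * x) (t * y) (t * z) = t * FL x y z := by
  unfold FL
  have e1 : t * y - 2 * (t * x) = t * (y - 2 * x) := by ring
  have h1 : |t * y - 3 * (t * x)| = t * |y - 3 * x| := by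
    have : t * y - 3 * (t * x) = t * (y - 3 * x) := by ring
    rw [this, abs_mul, abs_of_pos ht]
  have h2 : |t * z| = t * |z| := by rw [abs_mul, abs_of_pos ht]
  have h3 : |t * x| = t * |x| := by rw [abs_mul, abs_of_pos ht]
  rw [phi_hom t x y z ht, e1, max_hom t _ ht, h1, h2, h3, ← min_hom' t _ _ ht]
  congr 1 <;> ring

theorem hgt_hom (t x y z v : ℝ) (ht : 0 < t) :
    hgt (t * x) (t * y) (t * z) (t * v) = t * hgt x y z v := by
  unfold hgt
  rw [FU_hom t x y z ht, FL_hom t x y z ht, ← min_hom' t _ _ ht]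
  congr 1 <;> ring

theorem smul_coord (t : ℝ) (p : E 5) (j : Fin 5) : (t • p) j = t * p j := rfl

theorem hom_g (i : Fin 6) (t : ℝ) (ht : 0 < t) (p : E 5) : g i (t • p) = t * g i p := by
  fin_cases i
  · show g 0 (t • p) = t * g 0 p
    rw [g0, g0, smul_coord]
  · show g 1 (t • p) = t * g 1 p
    rw [g1, g1, smul_coord]
  · show g 2 (t • p) = t * g 2 p
    rw [g2, g2, smul_coord]
  · show g 3 (t • p) = t * g 3 p
    rw [g3, g3, smul_coord]
  · show g 4 (t • p) = t * g 4 p
    rw [g4, g4, smul_coord]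
  · show g 5 (t • p) = t * g 5 p
    rw [g5, g5]
    simp only [smul_coord]
    rw [hgt_hom t _ _ _ _ ht]; ring

theorem sign_hom (t a : ℝ) (ht : 0 < t) : SignType.sign (t * a) = SignType.sign a := by
  rw [sign_mul, sign_pos ht, one_mul]

/-- continuity of the sign of a continuous function on a set where it does not vanish -/
theorem contOn_sign {X : Type*} [TopologicalSpace X] {S : Set X} {f : X → ℝ} (hf : Continuous f)
    (h : ∀ p ∈ S, f p ≠ 0) : ContinuousOn (fun p => SignType.sign (f p)) S := by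
  intro p hp
  have h1 : ContinuousAt (SignType.sign : ℝ → SignType) (f p) := by
    rcases lt_or_gt_of_ne (h p hp) with h2 | h2
    · exact continuousAt_sign_of_neg h2
    · exact continuousAt_sign_of_pos h2
  exact (ContinuousAt.comp h1 hf.continuousAt).continuousWithinAt


/-- the first extra function on the surface `z = 0` -/
def u1 (p : E 5) : ℝ := max (p 1 - p 0) (max (g 5 p) (max (-p 4) (-p 0)))

/-- the second extra function on the surface `z = 0` -/
def u2 (p : E 5) : ℝ := max (p 1 - 3 * p 0) (max (g 5 p) (max (-p 4) (-p 0)))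

/-- the extra function on the surface `v = 0` -/
def w3 (p : E 5) : ℝ := max (|p 1 - 2 * p 0| + |p 2| - p 0) (max (g 5 p) (-p 4))

theorem cont_u1 : Continuous u1 := by
  have h5 := cont_g 5
  unfold u1
  fun_prop

theorem cont_u2 : Continuous u2 := by
  have h5 := cont_g 5
  unfold u2
  fun_prop

theorem cont_w3 : Continuous w3 := by
  have h5 := cont_g 5
  unfold w3
  fun_prop

theorem hom_u1 (t : ℝ) (ht : 0 < t) (p : E 5) : u1 (t • p) = t * u1 p := by
  unfold u1
  rw [hom_g 5 t ht]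
  simp only [smul_coord]
  rw [← max_hom' t _ _ ht, ← max_hom' t _ _ ht, ← max_hom' t _ _ ht]
  congr 1
  · ring
  · congr 1
    congr 1 <;> ring

theorem hom_u2 (t : ℝ) (ht : 0 < t) (p : E 5) : u2 (t • p) = t * u2 p := by
  unfold u2
  rw [hom_g 5 t ht]
  simp only [smul_coord]
  rw [← max_hom' t _ _ ht, ← max_hom' t _ _ ht, ← max_hom' t _ _ ht]
  congr 1
  · ring
  · congr 1
    congr 1 <;> ring

theorem hom_w3 (t : ℝ) (ht : 0 < t) (p : E 5) : w3 (t • p) = t * w3 p := by
  unfold w3
  rw [hom_g 5 t ht]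
  simp only [smul_coord]
  have h1 : |t * p 1 - 2 * (t * p 0)| = t * |p 1 - 2 * p 0| := by
    have : t * p 1 - 2 * (t * p 0) = t * (p 1 - 2 * p 0) := by ring
    rw [this, abs_mul, abs_of_pos ht]
  have h2 : |t * p 2| = t * |p 2| := by rw [abs_mul, abs_of_pos ht]
  rw [h1, h2, ← max_hom' t _ _ ht, ← max_hom' t _ _ ht]
  congr 1
  · ring
  · congr 1
    ring

/-- a point with prescribed signs -/
theorem sample (x y z : ℝ) (hU : 0 < FU x y z) (hL : 0 < FL x y z) (σ : Bool) (k : Fin 4) :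
    ∃ p : E 5, p 0 = x ∧ p 1 = y ∧ p 2 = z ∧
      SignType.sign (p 3) = (if σ then 1 else -1) ∧
      SignType.sign (p 4) = (![1, -1, 1, -1] : Fin 4 → SignType) k ∧
      SignType.sign (g 5 p) = (![1, -1, -1, 1] : Fin 4 → SignType) k := by
  obtain ⟨v, s, hv, hs⟩ := exists_vs x y z hU hL σ k
  have hg : g 5 (!₂[x, y, z, v, s] : E 5) = s - hgt x y z v := g5 _
  refine ⟨!₂[x, y, z, v, s], rfl, rfl, rfl, ?_, ?_, ?_⟩
  · show SignType.sign v = _
    cases σ
    · simp only [Bool.false_eq_true, if_false] at hv ⊢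
      exact sign_neg hv
    · simp only [if_true] at hv ⊢
      exact sign_pos hv
  · show SignType.sign s = _
    fin_cases k
    · exact sign_pos hs.1
    · exact sign_neg hs.1
    · exact sign_pos hs.1
    · exact sign_neg hs.1
  · rw [hg]
    fin_cases k
    · exact sign_pos hs.2
    · exact sign_neg hs.2
    · exact sign_neg hs.2
    · exact sign_pos hs.2

theorem u1_ne {p : E 5} (h2 : p 2 = 0) (h0 : p 0 ≠ 0) (h3 : p 3 ≠ 0) (h4 : p 4 ≠ 0)
    (h5 : g 5 p ≠ 0) : u1 p ≠ 0 := by
  intro h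
  have a1 : p 1 - p 0 ≤ u1 p := le_max_left _ _
  have a2 : g 5 p ≤ u1 p := (le_max_left _ _).trans (le_max_right _ _)
  have a3 : -p 4 ≤ u1 p :=
    ((le_max_left _ _).trans (le_max_right _ _)).trans (le_max_right _ _)
  have a4 : -p 0 ≤ u1 p :=
    ((le_max_right _ _).trans (le_max_right _ _)).trans (le_max_right _ _)
  rw [h] at a1 a2 a3 a4
  have b2 : g 5 p < 0 := lt_of_le_of_ne a2 h5
  have b3 : 0 < p 4 := lt_of_le_of_ne (by linarith) (Ne.symm h4)
  have b4 : 0 < p 0 := lt_of_le_of_ne (by linarith) (Ne.symm h0)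
  have b1 : p 1 - p 0 = 0 := by
    by_contra hne
    have hlt : p 1 - p 0 < 0 := lt_of_le_of_ne a1 hne
    have : u1 p < 0 := max_lt hlt (max_lt b2 (max_lt (by linarith) (by linarith)))
    linarith
  have e1 : p 1 = p 0 := by linarith
  have hU : FU (p 0) (p 1) (p 2) ≤ 0 := by
    refine (min_le_right _ _).trans ?_
    rw [e1, h2, abs_of_pos b4]; simp
  have hL : FL (p 0) (p 1) (p 2) ≤ 0 := by
    refine (min_le_left _ _).trans ?_
    unfold phi
    rw [e1, h2]
    have : |p 0 - 2 * p 0| = p 0 := by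
      rw [show p 0 - 2 * p 0 = -p 0 by ring, abs_neg, abs_of_pos b4]
    rw [this, max_eq_left (by linarith)]; simp
  have hh : hgt (p 0) (p 1) (p 2) (p 3) < 0 := by
    rcases lt_or_gt_of_ne h3 with h | h
    · exact (min_le_right _ _).trans_lt (by linarith)
    · exact (min_le_left _ _).trans_lt (by linarith)
  rw [g5] at b2
  linarith

theorem u2_ne {p : E 5} (h2 : p 2 = 0) (h0 : p 0 ≠ 0) (h3 : p 3 ≠ 0) (h4 : p 4 ≠ 0)
    (h5 : g 5 p ≠ 0) : u2 p ≠ 0 := by
  intro h
  have a1 : p 1 - 3 * p 0 ≤ u2 p := le_max_left _ _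
  have a2 : g 5 p ≤ u2 p := (le_max_left _ _).trans (le_max_right _ _)
  have a3 : -p 4 ≤ u2 p :=
    ((le_max_left _ _).trans (le_max_right _ _)).trans (le_max_right _ _)
  have a4 : -p 0 ≤ u2 p :=
    ((le_max_right _ _).trans (le_max_right _ _)).trans (le_max_right _ _)
  rw [h] at a1 a2 a3 a4
  have b2 : g 5 p < 0 := lt_of_le_of_ne a2 h5
  have b3 : 0 < p 4 := lt_of_le_of_ne (by linarith) (Ne.symm h4)
  have b4 : 0 < p 0 := lt_of_le_of_ne (by linarith) (Ne.symm h0)
  have b1 : p 1 - 3 * p 0 = 0 := by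
    by_contra hne
    have hlt : p 1 - 3 * p 0 < 0 := lt_of_le_of_ne a1 hne
    have : u2 p < 0 := max_lt hlt (max_lt b2 (max_lt (by linarith) (by linarith)))
    linarith
  have e1 : p 1 = 3 * p 0 := by linarith
  have hU : FU (p 0) (p 1) (p 2) ≤ 0 := by
    refine (min_le_left _ _).trans ?_
    unfold phi
    rw [e1, h2]
    have : |3 * p 0 - 2 * p 0| = p 0 := by
      rw [show 3 * p 0 - 2 * p 0 = p 0 by ring, abs_of_pos b4]
    rw [this, max_eq_left (by linarith)]; simp
  have hL : FL (p 0) (p 1) (p 2) ≤ 0 := by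
    refine (min_le_right _ _).trans ?_
    rw [e1, h2, abs_of_pos b4]; simp
  have hh : hgt (p 0) (p 1) (p 2) (p 3) < 0 := by
    rcases lt_or_gt_of_ne h3 with h | h
    · exact (min_le_right _ _).trans_lt (by linarith)
    · exact (min_le_left _ _).trans_lt (by linarith)
  rw [g5] at b2
  linarith

theorem w3_ne {p : E 5} (h3 : p 3 = 0) (h4 : p 4 ≠ 0) (h5 : g 5 p ≠ 0) : w3 p ≠ 0 := by
  intro h
  have a1 : |p 1 - 2 * p 0| + |p 2| - p 0 ≤ w3 p := le_max_left _ _
  have a2 : g 5 p ≤ w3 p := (le_max_left _ _).trans (le_max_right _ _)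
  have a3 : -p 4 ≤ w3 p := (le_max_right _ _).trans (le_max_right _ _)
  rw [h] at a1 a2 a3
  have b2 : g 5 p < 0 := lt_of_le_of_ne a2 h5
  have b3 : 0 < p 4 := lt_of_le_of_ne (by linarith) (Ne.symm h4)
  have b1 : |p 1 - 2 * p 0| + |p 2| - p 0 = 0 := by
    by_contra hne
    have hlt : |p 1 - 2 * p 0| + |p 2| - p 0 < 0 := lt_of_le_of_ne a1 hne
    have : w3 p < 0 := max_lt hlt (max_lt b2 (by linarith))
    linarith
  have hphi : phi (p 0) (p 1) (p 2) = 0 := by unfold phi; rw [b1, abs_zero]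
  have hh : hgt (p 0) (p 1) (p 2) (p 3) ≤ 0 := by
    rcases le_total (p 1) (2 * p 0) with h' | h'
    · refine (min_le_right _ _).trans ?_
      have : FL (p 0) (p 1) (p 2) ≤ 0 := by
        refine (min_le_left _ _).trans ?_
        rw [hphi, max_eq_left (by linarith)]; simp
      linarith
    · refine (min_le_left _ _).trans ?_
      have : FU (p 0) (p 1) (p 2) ≤ 0 := by
        refine (min_le_left _ _).trans ?_
        rw [hphi, max_eq_left (by linarith)]; simp
      linarith
  rw [g5] at b2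
  linarith


/-- `1` or `-1` -/
def sg (b : Bool) : ℝ := if b then 1 else -1

theorem sg_sign (b : Bool) (c : ℝ) (hc : 0 < c) :
    SignType.sign (c * sg b) = if b then 1 else -1 := by
  cases b
  · simp only [sg, Bool.false_eq_true, if_false]
    exact sign_neg (by linarith)
  · simp only [sg, if_true]
    exact sign_pos (by linarith)

theorem bool_inj {a b : Bool} (h : (if a then (1 : SignType) else -1) = if b then 1 else -1) :
    a = b := by
  revert h; revert a b; decide

theorem fin4_inj {k l : Fin 4} (h : (![1, -1, 1, -1] : Fin 4 → SignType) k =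
    (![1, -1, 1, -1] : Fin 4 → SignType) l)
    (h' : (![1, -1, -1, 1] : Fin 4 → SignType) k = (![1, -1, -1, 1] : Fin 4 → SignType) l) :
    k = l := by
  revert h h'; revert k l; decide

theorem FU_pos (x y z : ℝ) (h1 : |y - 2 * x| + |z| - x ≠ 0) (h2 : y ≠ x) : 0 < FU x y z := by
  unfold FU phi
  apply lt_min
  · have := abs_pos.2 h1
    have h := le_max_left 0 (2 * x - y)
    linarith
  · have h3 := abs_pos.2 (sub_ne_zero.2 h2)
    have h4 := abs_nonneg z
    have h5 := le_abs_self x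
    linarith

theorem FL_pos (x y z : ℝ) (h1 : |y - 2 * x| + |z| - x ≠ 0) (h2 : y ≠ 3 * x) :
    0 < FL x y z := by
  unfold FL phi
  apply lt_min
  · have := abs_pos.2 h1
    have h := le_max_left 0 (y - 2 * x)
    linarith
  · have h3 := abs_pos.2 (sub_ne_zero.2 h2)
    have h4 := abs_nonneg z
    have h5 := le_abs_self x
    linarith

/-- abscissa of the samples on `z = 0` -/
noncomputable def X2 : (Bool × Bool × Bool × Fin 4) ⊕ (Bool × Bool) → ℝ
  | Sum.inl q => sg q.1
  | Sum.inr _ => 1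

/-- ordinate of the samples on `z = 0` -/
noncomputable def Y2 : (Bool × Bool × Bool × Fin 4) ⊕ (Bool × Bool) → ℝ
  | Sum.inl q => (1 / 2) * sg q.2.1
  | Sum.inr q => if q.1 then 4 else 2

/-- sign of `v` -/
def S2 : (Bool × Bool × Bool × Fin 4) ⊕ (Bool × Bool) → Bool
  | Sum.inl q => q.2.2.1
  | Sum.inr q => q.2

/-- pattern -/
def K2 : (Bool × Bool × Bool × Fin 4) ⊕ (Bool × Bool) → Fin 4
  | Sum.inl q => q.2.2.2
  | Sum.inr _ => 2

theorem ne2 (a : (Bool × Bool × Bool × Fin 4) ⊕ (Bool × Bool)) :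
    |Y2 a - 2 * X2 a| + |(0 : ℝ)| - X2 a ≠ 0 ∧ Y2 a ≠ X2 a ∧ Y2 a ≠ 3 * X2 a ∧ X2 a ≠ 0 ∧
      Y2 a ≠ 0 := by
  rcases a with ⟨a, b, c, d⟩ | ⟨a, b⟩
  · cases a <;> cases b <;> simp only [X2, Y2, sg, if_true, Bool.false_eq_true, if_false] <;>
      norm_num [abs_of_pos, abs_of_neg]
  · cases a <;> simp only [X2, Y2, if_true, Bool.false_eq_true, if_false] <;>
      norm_num [abs_of_pos, abs_of_neg]


/-- the label on the surface `z = 0` -/
noncomputable def L2 (p : E 5) : SignType × SignType × SignType × SignType × SignType ×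
    SignType × SignType :=
  (SignType.sign (g 0 p), SignType.sign (g 1 p), SignType.sign (g 3 p), SignType.sign (g 4 p),
    SignType.sign (g 5 p), SignType.sign (u1 p), SignType.sign (u2 p))

theorem cont_L2 : ContinuousOn L2 {p : E 5 | p ≠ 0 ∧ g 2 p = 0 ∧ ∀ j, j ≠ 2 → g j p ≠ 0} := by
  have key : ∀ p ∈ {p : E 5 | p ≠ 0 ∧ g 2 p = 0 ∧ ∀ j, j ≠ 2 → g j p ≠ 0},
      p 2 = 0 ∧ p 0 ≠ 0 ∧ p 3 ≠ 0 ∧ p 4 ≠ 0 ∧ g 5 p ≠ 0 := by
    rintro p ⟨-, h2, h⟩
    refine ⟨by rw [← g2]; exact h2, by rw [← g0]; exact h 0 (by decide),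
      by rw [← g3]; exact h 3 (by decide), by rw [← g4]; exact h 4 (by decide),
      h 5 (by decide)⟩
  have hg : ∀ j : Fin 6, j ≠ 2 → ContinuousOn (fun p : E 5 => SignType.sign (g j p))
      {p : E 5 | p ≠ 0 ∧ g 2 p = 0 ∧ ∀ j, j ≠ 2 → g j p ≠ 0} := by
    intro j hj
    exact contOn_sign (cont_g j) (fun p hp => hp.2.2 j hj)
  exact (hg 0 (by decide)).prodMk ((hg 1 (by decide)).prodMk ((hg 3 (by decide)).prodMk
    ((hg 4 (by decide)).prodMk ((hg 5 (by decide)).prodMk
    ((contOn_sign cont_u1 (fun p hp => by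
        obtain ⟨a, b, c, d, e⟩ := key p hp
        exact u1_ne a b c d e)).prodMk
      (contOn_sign cont_u2 (fun p hp => by
        obtain ⟨a, b, c, d, e⟩ := key p hp
        exact u2_ne a b c d e)))))))

theorem hom_L2 (t : ℝ) (p : E 5) (ht : 0 < t) : L2 (t • p) = L2 p := by
  unfold L2
  rw [hom_g _ t ht, hom_g _ t ht, hom_g _ t ht, hom_g _ t ht, hom_g _ t ht, hom_u1 t ht,
    hom_u2 t ht]
  simp only [sign_hom t _ ht]

theorem ne_of_sign {a : ℝ} {c : SignType} (h : SignType.sign a = c) (hc : c ≠ 0) : a ≠ 0 := by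
  rintro rfl
  exact hc (by rw [← h, sign_zero])

theorem bool_ne (b : Bool) : (if b then (1 : SignType) else -1) ≠ 0 := by
  revert b; decide

theorem k_ne (k : Fin 4) : (![1, -1, 1, -1] : Fin 4 → SignType) k ≠ 0 := by
  revert k; decide

theorem k_ne' (k : Fin 4) : (![1, -1, -1, 1] : Fin 4 → SignType) k ≠ 0 := by
  revert k; decide

end VD11c

open VD11c in
theorem edges2 (ι : E 4 → E 5) (hι : IsEmbedding ι)
    (hr : range ι = {p : E 5 | ‖p‖ = 1 ∧ p ≠ pInf}) :
    (36 : ℕ∞) ≤
      ENat.card (ConnectedComponents (free (fun i => {y : E 4 | g i (ι y) = 0}) 2)) := by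
  choose s h0 h1 h2 h3 h4 h5 using fun a : (Bool × Bool × Bool × Fin 4) ⊕ (Bool × Bool) =>
    sample (X2 a) (Y2 a) 0 (FU_pos _ _ _ (ne2 a).1 (ne2 a).2.1)
      (FL_pos _ _ _ (ne2 a).1 (ne2 a).2.2.1) (S2 a) (K2 a)
  have hcard : Fintype.card ((Bool × Bool × Bool × Fin 4) ⊕ (Bool × Bool)) = 36 := by
    simp
  have := count_components ι hι hr 2 (α := (Bool × Bool × Bool × Fin 4) ⊕ (Bool × Bool))
    L2 cont_L2 (fun t p ht => hom_L2 t p ht) s ?_ ?_
  · rw [hcard] at this
    exact_mod_cast this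
  · intro a
    refine ⟨?_, by rw [g2, h2], ?_⟩
    · intro hz
      apply (ne2 a).2.2.2.1
      rw [← h0, hz]; rfl
    · intro j hj
      fin_cases j
      · show g 0 (s a) ≠ 0
        rw [g0, h0]; exact (ne2 a).2.2.2.1
      · show g 1 (s a) ≠ 0
        rw [g1, h1]; exact (ne2 a).2.2.2.2
      · exact absurd rfl hj
      · show g 3 (s a) ≠ 0
        rw [g3]; exact ne_of_sign (h3 a) (bool_ne _)
      · show g 4 (s a) ≠ 0
        rw [g4]; exact ne_of_sign (h4 a) (k_ne _)
      · exact ne_of_sign (h5 a) (k_ne' _)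
  · intro a b hab
    simp only [L2, Prod.mk.injEq] at hab
    obtain ⟨e0, e1, e3, e4, e5, e6, e7⟩ := hab
    rw [g0, g0, h0, h0] at e0
    rw [g1, g1, h1, h1] at e1
    rw [g3, g3, h3, h3] at e3
    rw [g4, g4, h4, h4] at e4
    rw [h5, h5] at e5
    have eS : S2 a = S2 b := bool_inj e3
    have eK : K2 a = K2 b := fin4_inj e4 e5
    -- sign of the extra functions at a sample with pattern 2
    have hpos : ∀ a, K2 a = 2 → 0 < X2 a → 0 < s a 4 ∧ g 5 (s a) < 0 := by
      intro a hK hX
      have h4' := h4 a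
      have h5' := h5 a
      rw [hK] at h4' h5'
      exact ⟨sign_eq_one_iff.1 h4', sign_eq_neg_one_iff.1 h5'⟩
    have hu1n : ∀ a, K2 a = 2 → 0 < X2 a → Y2 a < X2 a → u1 (s a) < 0 := by
      intro a hK hX hY
      obtain ⟨q4, q5⟩ := hpos a hK hX
      exact max_lt (by rw [h1, h0]; linarith) (max_lt q5 (max_lt (by linarith)
        (by rw [h0]; linarith)))
    have hu1p : ∀ a, X2 a < Y2 a → 0 < u1 (s a) := by
      intro a hY
      exact lt_of_lt_of_le (by rw [h1, h0]; linarith) (le_max_left _ _)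
    have hu2n : ∀ a, K2 a = 2 → 0 < X2 a → Y2 a < 3 * X2 a → u2 (s a) < 0 := by
      intro a hK hX hY
      obtain ⟨q4, q5⟩ := hpos a hK hX
      exact max_lt (by rw [h1, h0]; linarith) (max_lt q5 (max_lt (by linarith)
        (by rw [h0]; linarith)))
    have hu2p : ∀ a, 3 * X2 a < Y2 a → 0 < u2 (s a) := by
      intro a hY
      exact lt_of_lt_of_le (by rw [h1, h0]; linarith) (le_max_left _ _)
    have mixed : ∀ (q : Bool × Bool × Bool × Fin 4) (r : Bool × Bool),
        K2 (Sum.inl q) = K2 (Sum.inr r) →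
        SignType.sign (X2 (Sum.inl q)) = SignType.sign (X2 (Sum.inr r)) →
        SignType.sign (u1 (s (Sum.inl q))) = SignType.sign (u1 (s (Sum.inr r))) → False := by
      rintro ⟨a, b, c, d⟩ ⟨e, f⟩ hK hX hu
      have hK2 : K2 (Sum.inl (a, b, c, d)) = 2 := hK
      have hXp : 0 < X2 (Sum.inl (a, b, c, d)) := by
        have : SignType.sign (X2 (Sum.inr (e, f))) = 1 := by simp [X2]
        rw [this] at hX
        exact sign_eq_one_iff.1 hX
      have ha : a = true := by
        cases a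
        · simp [X2, sg] at hXp
          linarith
        · rfl
      subst ha
      have n1 : u1 (s (Sum.inl (true, b, c, d))) < 0 := by
        apply hu1n _ hK2 hXp
        cases b <;> simp [X2, Y2, sg] <;> norm_num
      have n2 : 0 < u1 (s (Sum.inr (e, f))) := by
        apply hu1p
        cases e <;> simp [X2, Y2]
      rw [sign_neg n1, sign_pos n2] at hu
      exact absurd hu (by decide)
    rcases a with ⟨a, b', c, d⟩ | ⟨a, b'⟩ <;> rcases b with ⟨a2, b2, c2, d2⟩ | ⟨a2, b2⟩
    · have ea : a = a2 := by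
        have := sg_sign a 1 one_pos
        have h := sg_sign a2 1 one_pos
        rw [one_mul] at this h
        apply bool_inj
        rw [← this, ← h]; exact e0
      have eb : b' = b2 := by
        have := sg_sign b' (1 / 2) (by norm_num)
        have h := sg_sign b2 (1 / 2) (by norm_num)
        apply bool_inj
        rw [← this, ← h]; exact e1
      have ec : c = c2 := eS
      have ed : d = d2 := eK
      rw [ea, eb, ec, ed]
    · exact (mixed _ _ eK e0 e6).elim
    · exact (mixed _ _ eK.symm e0.symm e6.symm).elim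
    · have eb : b' = b2 := eS
      have ea : a = a2 := by
        cases a <;> cases a2
        · rfl
        · exfalso
          have n1 := hu2n (Sum.inr (false, b')) rfl (by simp [X2]) (by simp [X2, Y2]; norm_num)
          have n2 := hu2p (Sum.inr (true, b2)) (by simp [X2, Y2]; norm_num)
          rw [sign_neg n1, sign_pos n2] at e7
          exact absurd e7 (by decide)
        · exfalso
          have n1 := hu2n (Sum.inr (false, b2)) rfl (by simp [X2]) (by simp [X2, Y2]; norm_num)
          have n2 := hu2p (Sum.inr (true, b')) (by simp [X2, Y2]; norm_num)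
          rw [sign_neg n1, sign_pos n2] at e7
          exact absurd e7 (by decide)
        · rfl
      rw [ea, eb]



namespace VD11c

/-- coordinates of the samples on `v = 0` -/
noncomputable def X3 : (Bool × Bool × Bool × Fin 3) ⊕ Bool → ℝ
  | Sum.inl q => sg q.1
  | Sum.inr _ => 1

/-- coordinates of the samples on `v = 0` -/
noncomputable def Y3 : (Bool × Bool × Bool × Fin 3) ⊕ Bool → ℝ
  | Sum.inl q => 5 * sg q.2.1
  | Sum.inr _ => 2

/-- coordinates of the samples on `v = 0` -/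
noncomputable def Z3 : (Bool × Bool × Bool × Fin 3) ⊕ Bool → ℝ
  | Sum.inl q => 5 * sg q.2.2.1
  | Sum.inr b => (1 / 2) * sg b

/-- pattern -/
def K3 : (Bool × Bool × Bool × Fin 3) ⊕ Bool → Fin 3
  | Sum.inl q => q.2.2.2
  | Sum.inr _ => 2

theorem ne3 (a : (Bool × Bool × Bool × Fin 3) ⊕ Bool) :
    |Y3 a - 2 * X3 a| + |Z3 a| - X3 a ≠ 0 ∧ Y3 a ≠ X3 a ∧ Y3 a ≠ 3 * X3 a ∧ X3 a ≠ 0 ∧
      Y3 a ≠ 0 ∧ Z3 a ≠ 0 := by
  rcases a with ⟨a, b, c, d⟩ | a
  · cases a <;> cases b <;> cases c <;>
      simp only [X3, Y3, Z3, sg, if_true, Bool.false_eq_true, if_false] <;>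
      norm_num [abs_of_pos, abs_of_neg]
  · cases a <;> simp only [X3, Y3, Z3, sg, if_true, Bool.false_eq_true, if_false] <;>
      norm_num [abs_of_pos, abs_of_neg]

/-- a point of `v = 0` with prescribed signs -/
theorem sample3 (x y z : ℝ) (hU : 0 < FU x y z) (hL : 0 < FL x y z) (k : Fin 3) :
    ∃ p : E 5, p 0 = x ∧ p 1 = y ∧ p 2 = z ∧ p 3 = 0 ∧
      SignType.sign (p 4) = (![1, -1, 1] : Fin 3 → SignType) k ∧
      SignType.sign (g 5 p) = (![1, -1, -1] : Fin 3 → SignType) k := by
  have hh : 0 < hgt x y z 0 := by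
    unfold hgt
    exact lt_min (by linarith) (by linarith)
  have hg : ∀ s, g 5 (!₂[x, y, z, 0, s] : E 5) = s - hgt x y z 0 := fun s => g5 _
  refine ⟨!₂[x, y, z, 0, ![hgt x y z 0 + 1, -1, hgt x y z 0 / 2] k], rfl, rfl, rfl, rfl, ?_, ?_⟩
  · show SignType.sign (![hgt x y z 0 + 1, -1, hgt x y z 0 / 2] k) = _
    fin_cases k
    · exact sign_pos (by simp; linarith)
    · exact sign_neg (by simp)
    · exact sign_pos (by simp; linarith)
  · rw [hg]
    fin_cases k
    · exact sign_pos (by simp)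
    · exact sign_neg (by simp; linarith)
    · exact sign_neg (by simp; linarith)

theorem fin3_inj {k l : Fin 3} (h : (![1, -1, 1] : Fin 3 → SignType) k =
    (![1, -1, 1] : Fin 3 → SignType) l)
    (h' : (![1, -1, -1] : Fin 3 → SignType) k = (![1, -1, -1] : Fin 3 → SignType) l) :
    k = l := by
  revert h h'; revert k l; decide

theorem k3_ne (k : Fin 3) : (![1, -1, 1] : Fin 3 → SignType) k ≠ 0 := by
  revert k; decide

theorem k3_ne' (k : Fin 3) : (![1, -1, -1] : Fin 3 → SignType) k ≠ 0 := by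
  revert k; decide

/-- the label on the surface `v = 0` -/
noncomputable def L3 (p : E 5) : SignType × SignType × SignType × SignType × SignType ×
    SignType :=
  (SignType.sign (g 0 p), SignType.sign (g 1 p), SignType.sign (g 2 p), SignType.sign (g 4 p),
    SignType.sign (g 5 p), SignType.sign (w3 p))

theorem cont_L3 : ContinuousOn L3 {p : E 5 | p ≠ 0 ∧ g 3 p = 0 ∧ ∀ j, j ≠ 3 → g j p ≠ 0} := by
  have hg : ∀ j : Fin 6, j ≠ 3 → ContinuousOn (fun p : E 5 => SignType.sign (g j p))
      {p : E 5 | p ≠ 0 ∧ g 3 p = 0 ∧ ∀ j, j ≠ 3 → g j p ≠ 0} := by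
    intro j hj
    exact contOn_sign (cont_g j) (fun p hp => hp.2.2 j hj)
  exact (hg 0 (by decide)).prodMk ((hg 1 (by decide)).prodMk ((hg 2 (by decide)).prodMk
    ((hg 4 (by decide)).prodMk ((hg 5 (by decide)).prodMk
    (contOn_sign cont_w3 (fun p hp => by
        obtain ⟨-, hp3, hp⟩ := hp
        exact w3_ne (by rw [← g3]; exact hp3) (by rw [← g4]; exact hp 4 (by decide))
          (hp 5 (by decide))))))))

theorem hom_L3 (t : ℝ) (p : E 5) (ht : 0 < t) : L3 (t • p) = L3 p := by
  unfold L3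
  rw [hom_g _ t ht, hom_g _ t ht, hom_g _ t ht, hom_g _ t ht, hom_g _ t ht, hom_w3 t ht]
  simp only [sign_hom t _ ht]

end VD11c

open VD11c in
theorem edges3 (ι : E 4 → E 5) (hι : IsEmbedding ι)
    (hr : range ι = {p : E 5 | ‖p‖ = 1 ∧ p ≠ pInf}) :
    (26 : ℕ∞) ≤
      ENat.card (ConnectedComponents (free (fun i => {y : E 4 | g i (ι y) = 0}) 3)) := by
  choose s h0 h1 h2 h3 h4 h5 using fun a : (Bool × Bool × Bool × Fin 3) ⊕ Bool =>
    sample3 (X3 a) (Y3 a) (Z3 a) (FU_pos _ _ _ (ne3 a).1 (ne3 a).2.1)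
      (FL_pos _ _ _ (ne3 a).1 (ne3 a).2.2.1) (K3 a)
  have hcard : Fintype.card ((Bool × Bool × Bool × Fin 3) ⊕ Bool) = 26 := by
    simp
  have := count_components ι hι hr 3 (α := (Bool × Bool × Bool × Fin 3) ⊕ Bool)
    L3 cont_L3 (fun t p ht => hom_L3 t p ht) s ?_ ?_
  · rw [hcard] at this
    exact_mod_cast this
  · intro a
    refine ⟨?_, by rw [g3, h3], ?_⟩
    · intro hz
      apply (ne3 a).2.2.2.1
      rw [← h0, hz]; rfl
    · intro j hj
      fin_cases j
      · show g 0 (s a) ≠ 0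
        rw [g0, h0]; exact (ne3 a).2.2.2.1
      · show g 1 (s a) ≠ 0
        rw [g1, h1]; exact (ne3 a).2.2.2.2.1
      · show g 2 (s a) ≠ 0
        rw [g2, h2]; exact (ne3 a).2.2.2.2.2
      · exact absurd rfl hj
      · show g 4 (s a) ≠ 0
        rw [g4]; exact ne_of_sign (h4 a) (k3_ne _)
      · exact ne_of_sign (h5 a) (k3_ne' _)
  · intro a b hab
    simp only [L3, Prod.mk.injEq] at hab
    obtain ⟨e0, e1, e2, e4, e5, e6⟩ := hab
    rw [g0, g0, h0, h0] at e0
    rw [g1, g1, h1, h1] at e1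
    rw [g2, g2, h2, h2] at e2
    rw [g4, g4, h4, h4] at e4
    rw [h5, h5] at e5
    have eK : K3 a = K3 b := fin3_inj e4 e5
    have hwn : ∀ r : Bool, w3 (s (Sum.inr r)) < 0 := by
      intro r
      have h4' := h4 (Sum.inr r)
      have h5' := h5 (Sum.inr r)
      have q4 : 0 < s (Sum.inr r) 4 := sign_eq_one_iff.1 h4'
      have q5 : g 5 (s (Sum.inr r)) < 0 := sign_eq_neg_one_iff.1 h5'
      refine max_lt ?_ (max_lt q5 (by linarith))
      rw [h0, h1, h2]
      cases r <;> simp only [X3, Y3, Z3, sg, if_true, Bool.false_eq_true, if_false] <;>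
        norm_num [abs_of_pos, abs_of_neg]
    have hwp : ∀ q : Bool × Bool × Bool × Fin 3, 0 < w3 (s (Sum.inl q)) := by
      rintro ⟨a, b, c, d⟩
      refine lt_of_lt_of_le ?_ (le_max_left _ _)
      rw [h0, h1, h2]
      cases a <;> cases b <;> cases c <;>
        simp only [X3, Y3, Z3, sg, if_true, Bool.false_eq_true, if_false] <;>
        norm_num [abs_of_pos, abs_of_neg]
    rcases a with ⟨a, b', c, d⟩ | a <;> rcases b with ⟨a2, b2, c2, d2⟩ | b
    · have ea : a = a2 := by
        have := sg_sign a 1 one_pos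
        have h := sg_sign a2 1 one_pos
        rw [one_mul] at this h
        apply bool_inj
        rw [← this, ← h]; exact e0
      have eb : b' = b2 := by
        have := sg_sign b' 5 (by norm_num)
        have h := sg_sign b2 5 (by norm_num)
        apply bool_inj
        rw [← this, ← h]; exact e1
      have ec : c = c2 := by
        have := sg_sign c 5 (by norm_num)
        have h := sg_sign c2 5 (by norm_num)
        apply bool_inj
        rw [← this, ← h]; exact e2
      have ed : d = d2 := eK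
      rw [ea, eb, ec, ed]
    · exfalso
      rw [sign_pos (hwp _), sign_neg (hwn _)] at e6
      exact absurd e6 (by decide)
    · exfalso
      rw [sign_pos (hwp _), sign_neg (hwn _)] at e6
      exact absurd e6 (by decide)
    · have ea : a = b := by
        have := sg_sign a (1 / 2) (by norm_num)
        have h := sg_sign b (1 / 2) (by norm_num)
        apply bool_inj
        rw [← this, ← h]; exact e2
      rw [ea]

end Pool.Agent.Helper13.Venn
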